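import Pool.Agent.H85.TU.Defs

/-!
# Prefix classes: definitions
-/

set_option autoImplicit false

open Set

namespace Pool.Agent.H85.TU

variable {ι : Type} {ar : ι → ℕ} {D : ι → Type}

/-- The types of `n`-tuples: the labels of the tuples of entries, and which entries are equal. -/
abbrev TY {ι : Type} (ar : ι → ℕ) (D : ι → Type) (n : ℕ) : Type :=
  Str ar D (Fin n) × (Fin n → Fin n → Bool)

/-- The type of the tuple `v` in `x`. -/
def tp (x : Str ar D ℕ) {n : ℕ} (v : Fin n → ℕ) : TY ar D n :=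
  (pull x v, fun i j => decide (v i = v j))

/-- `Q_0 a_0 Q_1 a_1 ... R [a_0, a_1, ...]`, where `Q_i` is `∀` if the `i`-th entry of the prefix is
`true` and `∃` if it is `false`. -/
def Pre : List Bool → (List ℕ → Prop) → Prop
  | [], R => R []
  | true :: π, R => ∀ a : ℕ, Pre π fun l => R (a :: l)
  | false :: π, R => ∃ a : ℕ, Pre π fun l => R (a :: l)

/-- The models of the sentence with the prefix `π` and the matrix `B`, a set of types. -/
def Sent (π : List Bool) (B : Set (TY ar D π.length)) : Set (Str ar D ℕ) :=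
  {x | Pre π fun l => tp x (fun i : Fin π.length => l.getD i 0) ∈ B}

/-- the prefixes `∃*∀*` -/
def IsEA (π : List Bool) : Prop :=
  ∃ m k, π = List.replicate m false ++ List.replicate k true

/-- the prefixes `∃*∃*`, `∃*∀∃*`, `∃*∀∀∃*` -/
def IsE2E (π : List Bool) : Prop :=
  ∃ m j l, j ≤ 2 ∧ π = List.replicate m false ++ List.replicate j true ++ List.replicate l false

/-- the prefixes `∃*∀∃*∀*` -/
def IsEAEA (π : List Bool) : Prop :=
  ∃ m l k, π = List.replicate m false ++ [true] ++ List.replicate l false ++ List.replicate k true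

/-- the prefixes `∃*∀∃∀∃*` -/
def IsEAEAE (π : List Bool) : Prop :=
  ∃ m l, π = List.replicate m false ++ [true, false, true] ++ List.replicate l false

/-- reindexing of types -/
def reidx {m n : ℕ} (r : Fin m → Fin n) (t : TY ar D n) : TY ar D m :=
  (fun i v => t.1 i (r ∘ v), fun i j => t.2 (r i) (r j))

/-! ### The core classes -/

section Core

variable {C : Type}

/-- types of tuples in structures with one binary map -/
abbrev TB (C : Type) (n : ℕ) : Type := TY bar (bD C) n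

/-- The class given by a universal condition on triples and countably many conditions on witnesses
for pairs. -/
def KK (α : Set (TB C 3)) (β : ℕ → Set (TB C 3)) : Set (Str bar (bD C) ℕ) :=
  {y | (∀ v : Fin 3 → ℕ, tp y v ∈ α) ∧ ∀ n a b, ∃ c, tp y ![a, b, c] ∈ β n}

/-- in the members of the class the length function takes all values -/
def HL (α : Set (TB C 3)) (β : ℕ → Set (TB C 3)) (len : C → ℕ) : Prop :=
  ∀ y ∈ KK α β, ∀ n, ∃ a, len (y () ![a, a]) = n

/-- labels of the blow-up: the sorts of the two points and the type of their four entries -/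
abbrev LC (C : Type) : Type := Bool × Bool × TB C 4

/-- the universe of the blow-up: points and pairs -/
abbrev UU : Type := ℕ ⊕ ℕ × ℕ

/-- the entries of a point of the blow-up -/
def sl : UU → Fin 2 → ℕ
  | .inl a, _ => a
  | .inr p, i => if i = 0 then p.1 else p.2

/-- the sort of a point of the blow-up: `true` for pairs -/
def so : UU → Bool
  | .inl _ => false
  | .inr _ => true

/-- the blow-up -/
def blow (y : Str bar (bD C) ℕ) : Str bar (bD (LC C)) UU :=
  fun _ v => (so (v 0), so (v 1), tp y ![sl (v 0) 0, sl (v 0) 1, sl (v 1) 0, sl (v 1) 1])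

/-- the label of the entries `i` and `j` -/
def lb (s : LC C) (i j : Fin 4) : C := s.2.2.1 () ![i, j]

/-- the entries `i` and `j` are equal -/
def eqv (s : LC C) (i j : Fin 4) : Prop := s.2.2.2 i j = true

/-- the label of the points `i` and `j` in a type of points of the blow-up -/
def LL {n : ℕ} (t : TB (LC C) n) (i j : Fin n) : LC C := t.1 () ![i, j]

/-- the conditions on pairs of points of the blow-up -/
def Ga (α : Set (TB C 3)) : Set (TB (LC C) 2) :=
  {t | ((LL t 1 0).1 = (LL t 0 1).2.1 ∧ (LL t 1 0).2.1 = (LL t 0 1).1 ∧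
      (LL t 1 0).2.2 = reidx ![2, 3, 0, 1] (LL t 0 1).2.2) ∧
    ((LL t 0 0).1 = (LL t 0 1).1 ∧ (LL t 0 0).2.1 = (LL t 0 1).1 ∧
      (LL t 0 0).2.2 = reidx ![0, 1, 0, 1] (LL t 0 1).2.2) ∧
    ((LL t 0 1).1 = false → eqv (LL t 0 1) 0 1) ∧
    (t.2 0 1 = false → (LL t 0 1).1 = (LL t 0 1).2.1 → eqv (LL t 0 1) 0 2 →
      eqv (LL t 0 1) 1 3 → False) ∧
    ((∀ i, eqv (LL t 0 1) i i) ∧ (∀ i j, eqv (LL t 0 1) i j → eqv (LL t 0 1) j i) ∧
      (∀ i j k, eqv (LL t 0 1) i j → eqv (LL t 0 1) j k → eqv (LL t 0 1) i k) ∧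
      ∀ i j k l, eqv (LL t 0 1) i j → eqv (LL t 0 1) k l →
        lb (LL t 0 1) i k = lb (LL t 0 1) j l) ∧
    ∀ f : Fin 3 → Fin 4, reidx f (LL t 0 1).2.2 ∈ α}

/-- the rows of the entry `i` of the first point and of the entry `0` of the second point, both
with respect to the third point, are the same -/
def Row (s s' : LC C) (i : Fin 4) : Prop :=
  ∀ k : Fin 4, 2 ≤ k → lb s i k = lb s' 0 k ∧ lb s k i = lb s' k 0 ∧ s.2.2.2 i k = s'.2.2.2 0 k

/-- the condition on triples of points of the blow-up -/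
def Rr : Set (TB (LC C) 3) :=
  {t | ∀ i : Fin 4, i < 2 → (LL t 0 1).2.1 = false → eqv (LL t 0 1) i 2 →
    Row (LL t 0 2) (LL t 1 2) i}

/-- the task with the number `k` for the pair `u` and its witness `e`; `p` is the label of `u`
and `e` -/
def Tk (β : ℕ → Set (TB C 3)) (p : LC C) : ℕ → Prop
  | 0 => eqv p 0 2
  | 1 => eqv p 1 2
  | k + 2 => reidx ![0, 1, 2] p.2.2 ∈ β k

/-- the witness `e` of the pair `(u, v)` of points of the blow-up; `s`, `p`, `q` are the labels of
`(u, v)`, `(u, e)`, `(v, e)` -/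
def Tas' (β : ℕ → Set (TB C 3)) (len : C → ℕ) (s p q : LC C) : Prop :=
  (s.1 = false → s.2.1 = false → p.2.1 = true ∧ eqv p 0 2 ∧ eqv q 0 3) ∧
  (s.1 = true → s.2.1 = false → p.2.1 = false ∧ Tk β p (Nat.unpair (len (lb s 2 2))).1) ∧
  (s.1 = false → s.2.1 = true → p.2.1 = false ∧ len (lb p 2 2) = len (lb p 0 0) + 1) ∧
  (s.1 = true → s.2.1 = true → p.2.1 = false)

/-- the condition on the witness -/
def Tas (β : ℕ → Set (TB C 3)) (len : C → ℕ) : Set (TB (LC C) 3) :=
  {t | Tas' β len (LL t 0 1) (LL t 0 2) (LL t 1 2)}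

/-- the class of the blow-ups -/
def S1 (α : Set (TB C 3)) (β : ℕ → Set (TB C 3)) (len : C → ℕ) : Set (Str bar (bD (LC C)) ℕ) :=
  {z | (∀ u v, tp z ![u, v] ∈ Ga α) ∧ (∀ u v w, tp z ![u, v, w] ∈ Rr) ∧
    ∀ u v, ∃ e, tp z ![u, v, e] ∈ Tas β len}

/-- the label of two points -/
def zl (z : Str bar (bD (LC C)) ℕ) (u v : ℕ) : LC C := z () ![u, v]

/-- the sort of a point is `false` -/
def S0 (z : Str bar (bD (LC C)) ℕ) (u : ℕ) : Prop := (zl z u u).1 = false

open Classical in
/-- the structure of the points of sort `false`, in their increasing enumeration -/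
noncomputable def dec (z : Str bar (bD (LC C)) ℕ) : Str bar (bD C) ℕ :=
  fun _ w => lb (zl z (Nat.nth (S0 z) (w 0)) (Nat.nth (S0 z) (w 1))) 0 2

/-- the matrix of the sentence with the prefix `∀∀∀∃` -/
def M1 (α : Set (TB C 3)) (β : ℕ → Set (TB C 3)) (len : C → ℕ) : Set (TB (LC C) 4) :=
  {t | reidx ![0, 1] t ∈ Ga α ∧ reidx ![0, 1, 2] t ∈ Rr ∧ reidx ![0, 1, 3] t ∈ Tas β len}

/-- the matrix of the sentence with the prefix `∀∀∃∀` -/
def M2 (α : Set (TB C 3)) (β : ℕ → Set (TB C 3)) (len : C → ℕ) : Set (TB (LC C) 4) :=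
  {t | reidx ![0, 1] t ∈ Ga α ∧ reidx ![0, 1, 3] t ∈ Rr ∧ reidx ![0, 1, 2] t ∈ Tas β len}

/-- the matrix of the sentence with the prefix `∀∃∃∀∃`: `u, d, d', v, e` -/
def M3 (α : Set (TB C 3)) (β : ℕ → Set (TB C 3)) (len : C → ℕ) : Set (TB (LC C) 5) :=
  {t | reidx ![0, 3] t ∈ Ga α ∧ reidx ![0, 3, 4] t ∈ Tas β len ∧
    (LL t 0 1).2.1 = false ∧ eqv (LL t 0 1) 0 2 ∧ Row (LL t 0 3) (LL t 1 3) 0 ∧
    (LL t 0 2).2.1 = false ∧ eqv (LL t 0 2) 1 2 ∧ Row (LL t 0 3) (LL t 2 3) 1}

end Core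

/-- the truth of a formula without quantifiers in a type -/
def HT {C : Type} [MeasurableSpace C] (t : TB C 3) : F3 C → Prop
  | .label _ B _ w => t.1 () w ∈ B
  | .equal a b => t.2 a b = true
  | .not φ => ¬ HT t φ
  | .conj φ => ∀ n, HT t (φ n)
  | .ex _ _ => False
  | .atLeast _ _ _ => False

end Pool.Agent.H85.TU
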