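import Pool.Agent.H85.TU.Targets
import Pool.Agent.H85.TU.Defs2

/-!
# Prefix classes: targets
-/

set_option autoImplicit false

open Set

namespace Pool.Agent.H85.TU

/-- three variables are enough, with points of all lengths -/
def T_N3P : Prop := ∀ (E : Type) [MeasurableSpace E] [StandardBorelSpace E]
  (X : Set (List ℕ → E)), MeasurableSet X → (∀ x ∈ X, ∀ x', IsoL x x' → x' ∈ X) →
    ∃ ψ : F3 ((ℕ × E) × (ℕ → Bool)), NoCount ψ ∧
      (∀ y ∈ ModelsAll ψ, ∀ n : ℕ, ∃ a : ℕ, (y () ![a, a]).1.1 = n) ∧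
      (CountablyMany (ModelsAll ψ) ↔
        ∃ S : Set (List ℕ → E), S.Countable ∧ ∀ x ∈ X, ∃ z ∈ S, IsoL x z) ∧
      (PerfectlyMany (ModelsAll ψ) ↔ ∃ F : (ℕ → Bool) → (List ℕ → E), Measurable F ∧
        (∀ u, F u ∈ X) ∧ ∀ u w, u ≠ w → ¬ IsoL (F u) (F w))

/-- formulas without quantifiers are conditions on types -/
def T_QFT : Prop := ∀ (C : Type) [MeasurableSpace C] (φ : F3 C), QuantifierFree φ →
  MeasurableSet {t : TB C 3 | HT t φ} ∧
    ∀ (y : Str bar (bD C) ℕ) (v : Fin 3 → ℕ), Holds y φ v ↔ HT (tp y v) φ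

/-- the models of the normal form are a core class -/
def T_NFK : Prop := ∀ (C : Type) [MeasurableSpace C] (φ : F3 C) (θ : ℕ → F3 C), NoCount φ →
  ∃ (α : Set (TB (LS (subs φ)) 3)) (β : ℕ → Set (TB (LS (subs φ)) 3)), MeasurableSet α ∧
    (∀ n, MeasurableSet (β n)) ∧ KK α β = ModelsAll (nf φ θ)

/-- every invariant Borel class is a core class -/
def T_COR : Prop := ∀ (ι : Type) [Countable ι] (ar : ι → ℕ) (D : ι → Type)
  [∀ i, MeasurableSpace (D i)] [∀ i, StandardBorelSpace (D i)] [∀ i, Nonempty (D i)]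
  (X : Set (Str ar D ℕ)), MeasurableSet X → (∀ x ∈ X, ∀ x', Iso x x' → x' ∈ X) →
    ∃ (C : Type) (_ : MeasurableSpace C) (_ : StandardBorelSpace C) (α : Set (TB C 3))
      (β : ℕ → Set (TB C 3)) (len : C → ℕ), MeasurableSet α ∧ (∀ n, MeasurableSet (β n)) ∧
      Measurable len ∧ HL α β len ∧ (CountablyMany (KK α β) ↔ CountablyMany X) ∧
      (PerfectlyMany (KK α β) ↔ PerfectlyMany X)

/-- the blow-ups of the members of the core class -/
def T_BL1 : Prop := ∀ (C : Type) (α : Set (TB C 3)) (β : ℕ → Set (TB C 3)) (len : C → ℕ),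
  HL α β len → ∀ y ∈ KK α β, ∀ e : ℕ ≃ UU, pull (blow y) e ∈ S1 α β len

/-- blow-ups and isomorphisms -/
def T_BL2 : Prop := ∀ (C : Type) (y y' : Str bar (bD C) ℕ), Iso y y' ↔ Iso (blow y) (blow y')

/-- sorts and equality of points of sort `false` -/
def T_B3A : Prop := ∀ (C : Type) (α : Set (TB C 3)) (z : Str bar (bD (LC C)) ℕ),
  (∀ u v, tp z ![u, v] ∈ Ga α) →
    (∀ u v, (zl z u v).1 = (zl z u u).1 ∧ (zl z u v).2.1 = (zl z v v).1) ∧
    ∀ u v, S0 z u → S0 z v → (eqv (zl z u v) 0 2 ↔ u = v)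

/-- witnesses of the tasks -/
def T_B3B : Prop := ∀ (C : Type) (α : Set (TB C 3)) (β : ℕ → Set (TB C 3)) (len : C → ℕ)
  (z : Str bar (bD (LC C)) ℕ), z ∈ S1 α β len →
    (∀ n, ∃ v, S0 z v ∧ n ≤ len (lb (zl z v v) 0 0)) ∧
    (∀ u, ∃ f, S0 z f ∧ eqv (zl z u f) 0 2) ∧ (∀ u, ∃ f, S0 z f ∧ eqv (zl z u f) 1 2) ∧
    (∀ u, ¬ S0 z u → ∀ k, ∃ e, S0 z e ∧ reidx ![0, 1, 2] (zl z u e).2.2 ∈ β k) ∧
    ∀ a b, S0 z a → S0 z b → ∃ e, ¬ S0 z e ∧ eqv (zl z e a) 0 2 ∧ eqv (zl z e b) 1 2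

/-- the type of the entries of two points: `F 0`, `F 1` are the entries of `u` and `F 2`, `F 3` are
the entries of `v` -/
def T_B3C : Prop := ∀ (C : Type) (α : Set (TB C 3)) (z : Str bar (bD (LC C)) ℕ),
  (∀ u v, tp z ![u, v] ∈ Ga α) → (∀ u v w, tp z ![u, v, w] ∈ Rr) →
  ∀ (u v : ℕ) (F : Fin 4 → ℕ), (∀ i, S0 z (F i)) → eqv (zl z u (F 0)) 0 2 →
    eqv (zl z u (F 1)) 1 2 → eqv (zl z v (F 2)) 0 2 → eqv (zl z v (F 3)) 1 2 →
    (∀ w, (zl z u v).2.2.1 () w = lb (zl z (F (w 0)) (F (w 1))) 0 2) ∧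
      ∀ i j, (zl z u v).2.2.2 i j = decide (F i = F j)

/-- the decoded structure is in the core class, and its blow-up is the structure -/
def T_B3D : Prop := ∀ (C : Type) (α : Set (TB C 3)) (β : ℕ → Set (TB C 3)) (len : C → ℕ)
  (z : Str bar (bD (LC C)) ℕ), z ∈ S1 α β len → dec z ∈ KK α β ∧ Iso z (blow (dec z))

/-- the maps are Borel -/
def T_BL4 : Prop := ∀ (C : Type) [MeasurableSpace C] [StandardBorelSpace C],
  (Measurable fun z : Str bar (bD (LC C)) ℕ => dec z) ∧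
    ∀ e : ℕ ≃ UU, Measurable fun y : Str bar (bD C) ℕ => pull (blow y) e

/-- the classes of sentences are invariant -/
def T_SIS : Prop := ∀ (ι : Type) (ar : ι → ℕ) (D : ι → Type) (π : List Bool)
  (B : Set (TY ar D π.length)), ∀ x ∈ Sent π B, ∀ x' : Str ar D ℕ, Iso x x' → x' ∈ Sent π B

/-- the class of the blow-ups has as many types as the core class -/
def T_BLO : Prop := ∀ (C : Type) [MeasurableSpace C] [StandardBorelSpace C] (α : Set (TB C 3))
  (β : ℕ → Set (TB C 3)) (len : C → ℕ), HL α β len →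
    (CountablyMany (S1 α β len) ↔ CountablyMany (KK α β)) ∧
      (PerfectlyMany (S1 α β len) ↔ PerfectlyMany (KK α β))

/-- the first two prefixes -/
def T_P12 : Prop := ∀ (C : Type) (α : Set (TB C 3)) (β : ℕ → Set (TB C 3)) (len : C → ℕ),
  Sent [true, true, true, false] (M1 α β len) = S1 α β len ∧
    Sent [true, true, false, true] (M2 α β len) = S1 α β len

/-- the third prefix -/
def T_P3 : Prop := ∀ (C : Type) (α : Set (TB C 3)) (β : ℕ → Set (TB C 3)) (len : C → ℕ),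
  Sent [true, false, false, true, false] (M3 α β len) = S1 α β len

/-- the parts of the matrices are Borel -/
def T_MSA : Prop := ∀ (C : Type) [MeasurableSpace C] [StandardBorelSpace C] (α : Set (TB C 3))
  (β : ℕ → Set (TB C 3)) (len : C → ℕ), MeasurableSet α → (∀ n, MeasurableSet (β n)) →
    Measurable len → MeasurableSet (Ga α) ∧ MeasurableSet (Tas β len) ∧
      MeasurableSet {p : LC C × LC C | Row p.1 p.2 0} ∧
      MeasurableSet {p : LC C × LC C | Row p.1 p.2 1} ∧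
      MeasurableSet (Rr : Set (TB (LC C) 3))

/-- the matrices are Borel -/
def T_MSM : Prop := ∀ (C : Type) [MeasurableSpace C] [StandardBorelSpace C] (α : Set (TB C 3))
  (β : ℕ → Set (TB C 3)) (len : C → ℕ), MeasurableSet α → (∀ n, MeasurableSet (β n)) →
    Measurable len → MeasurableSet (M1 α β len) ∧ MeasurableSet (M2 α β len) ∧
      MeasurableSet (M3 α β len)

/-- dummy quantifiers -/
def T_DUM : Prop := ∀ (ι : Type) (ar : ι → ℕ) (D : ι → Type) [∀ i, MeasurableSpace (D i)]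
  (π' π : List Bool), π'.Sublist π → ∀ B' : Set (TY ar D π'.length), MeasurableSet B' →
    ∃ B : Set (TY ar D π.length), MeasurableSet B ∧ Sent π B = Sent π' B'

/-- the prefixes outside the four families -/
def T_WRD : Prop := ∀ π : List Bool, ¬ IsEA π → ¬ IsE2E π → ¬ IsEAEA π → ¬ IsEAEAE π →
  [true, true, true, false].Sublist π ∨ [true, true, false, true].Sublist π ∨
    [true, false, false, true, false].Sublist π

/-- the dichotomy for `∃*∀^{≤2}∃*` -/
def T_E2E : Prop := ∀ (ι : Type) [Countable ι] (ar : ι → ℕ) (D : ι → Type)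
  [∀ i, MeasurableSpace (D i)] [∀ i, StandardBorelSpace (D i)] (π : List Bool)
  (B : Set (TY ar D π.length)), IsE2E π → MeasurableSet B →
    CountablyMany (Sent π B) ∨ PerfectlyMany (Sent π B)

/-- the dichotomy for `∃*∀*` -/
def T_EAS : Prop := ∀ (ι : Type) [Countable ι] (ar : ι → ℕ) (D : ι → Type)
  [∀ i, MeasurableSpace (D i)] [∀ i, StandardBorelSpace (D i)] (π : List Bool)
  (B : Set (TY ar D π.length)), IsEA π → MeasurableSet B →
    CountablyMany (Sent π B) ∨ PerfectlyMany (Sent π B)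

/-- the other prefixes are universal -/
def T_HPX : Prop := ∀ (π : List Bool), ¬ IsEA π → ¬ IsE2E π → ¬ IsEAEA π → ¬ IsEAEAE π →
  ∀ (ι : Type) [Countable ι] (ar : ι → ℕ) (D : ι → Type) [∀ i, MeasurableSpace (D i)]
    [∀ i, StandardBorelSpace (D i)] [∀ i, Nonempty (D i)] (X : Set (Str ar D ℕ)),
    MeasurableSet X → (∀ x ∈ X, ∀ x', Iso x x' → x' ∈ X) →
      ∃ (C : Type) (_ : MeasurableSpace C) (_ : StandardBorelSpace C)
        (B : Set (TY bar (bD C) π.length)), MeasurableSet B ∧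
        (CountablyMany (Sent π B) ↔ CountablyMany X) ∧
        (PerfectlyMany (Sent π B) ↔ PerfectlyMany X)

end Pool.Agent.H85.TU
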