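import Pool.Agent.H85.TU.Easy
import Pool.Agent.H98.TU.L2S
import Pool.Agent.H97.TU.SUB
import Pool.Agent.H97.TU.TRU
import Pool.Agent.H97.TU.HIS
import Pool.Agent.H14.TU.EXP
import Pool.Agent.H18.TU.EXM
import Pool.Agent.H86.TU.MHO
import Pool.Agent.H89.TU.N3P
import Pool.Agent.H32.TU.QFT
import Pool.Agent.H66.TU.NFK
import Pool.Agent.H1.TU.COR
import Pool.Agent.H34.TU.BL1
import Pool.Agent.H34.TU.BL2
import Pool.Agent.H14.TU.B3A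
import Pool.Agent.H66.TU.B3B
import Pool.Agent.H26.TU.B3C
import Pool.Agent.H26.TU.B3D
import Pool.Agent.H96.TU.BL4
import Pool.Agent.H1.TU.SIS
import Pool.Agent.H16.TU.BLO
import Pool.Agent.H96.TU.P12
import Pool.Agent.H12.TU.P3
import Pool.Agent.H74.TU.MSA
import Pool.Agent.H14.TU.MSM
import Pool.Agent.H11.TU.DUM
import Pool.Agent.H16.TU.WRD
import Pool.Agent.H60.TU.E2E
import Pool.Agent.H4.TU.EAS
import Pool.Agent.H65.TU.HPX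

/-!
# Prefix classes: all rows
-/

set_option autoImplicit false

namespace Pool.Agent.H85.TU

theorem all_COR : T_COR :=
  Pool.Agent.H1.TU.pf_COR Pool.Agent.H98.TU.pf_L2S Pool.Agent.H89.TU.pf_N3P
    Pool.Agent.H97.TU.pf_SUB (Pool.Agent.H97.TU.TRU.pf_TRU Pool.Agent.H97.TU.pf_SUB)
    (Pool.Agent.H14.TU.pf_EXP Pool.Agent.H97.TU.pf_SUB)
    (Pool.Agent.H18.TU.pf_EXM Pool.Agent.H86.TU.pf_MHO Pool.Agent.H97.TU.pf_HIS)
    (Pool.Agent.H66.TU.pf_NFK Pool.Agent.H32.TU.pf_QFT)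

theorem all_B3B : T_B3B := Pool.Agent.H66.TU.pf_B3B Pool.Agent.H14.TU.pf_B3A

theorem all_B3D : T_B3D :=
  Pool.Agent.H26.TU.B3D.pf_B3D Pool.Agent.H14.TU.pf_B3A all_B3B
    (Pool.Agent.H26.TU.B3C.pf_B3C Pool.Agent.H14.TU.pf_B3A)

theorem all_BLO : T_BLO :=
  Pool.Agent.H16.TU.pf_BLO Pool.Agent.H34.TU.B1.pf_BL1 Pool.Agent.H34.TU.pf_BL2 all_B3D
    Pool.Agent.H96.TU.pf_BL4 Pool.Agent.H1.TU.pf_SIS Pool.Agent.H96.TU.pf_P12

theorem all_HPX : T_HPX :=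
  Pool.Agent.H65.TU.pf_HPX all_COR all_BLO Pool.Agent.H96.TU.pf_P12
    (Pool.Agent.H12.TU.pf_P3 Pool.Agent.H14.TU.pf_B3A all_B3B)
    (Pool.Agent.H14.TU.pf_MSM Pool.Agent.H74.TU.pf_MSA) Pool.Agent.H11.TU.pf_DUM
    Pool.Agent.H16.TU.pf_WRD

theorem all_E2E : T_E2E :=
  Pool.Agent.H60.TU.pf_E2E all_MRK Pool.Agent.H59.TU.pf_BOR Pool.Agent.H11.TU.pf_DUM

theorem all_EAS : T_EAS := Pool.Agent.H4.TU.pf_EAS Pool.Agent.H1.TU.pf_SIS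

end Pool.Agent.H85.TU
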