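import Mathlib

/-!
# Vaught's conjecture: two is true, three is everything. Definitions
-/

set_option autoImplicit false

open Set

namespace Pool.Agent.H85.TU

/-- Structures with universe `V`: countably many maps `x i : V^(ar i) → D i`. -/
abbrev Str {ι : Type} (ar : ι → ℕ) (D : ι → Type) (V : Type) : Type :=
  ∀ i, (Fin (ar i) → V) → D i

variable {ι : Type} {ar : ι → ℕ} {D : ι → Type}

/-- The structure on `W` induced by a map from `W` to the universe `V` of `x`. -/
def pull {V W : Type} (x : Str ar D V) (p : W → V) : Str ar D W := fun i v => x i (p ∘ v)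

/-- Isomorphic structures. -/
def Iso {V W : Type} (x : Str ar D V) (y : Str ar D W) : Prop :=
  ∃ g : V ≃ W, ∀ i v, y i (g ∘ v) = x i v

/-- The permutation `g` is an automorphism of `x`. -/
def Aut {V : Type} (x : Str ar D V) (g : V ≃ V) : Prop := ∀ i v, x i (g ∘ v) = x i v

/-- A countable set meets all isomorphism types of members of `A`. -/
def CountablyMany (A : Set (Str ar D ℕ)) : Prop :=
  ∃ S : Set (Str ar D ℕ), S.Countable ∧ ∀ x ∈ A, ∃ y ∈ S, Iso x y

/-- A Borel map from the Cantor space to `A` takes pairwise non-isomorphic values. -/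
def PerfectlyMany [∀ i, MeasurableSpace (D i)] (A : Set (Str ar D ℕ)) : Prop :=
  ∃ F : (ℕ → Bool) → Str ar D ℕ, Measurable F ∧ (∀ u, F u ∈ A) ∧ ∀ u v, u ≠ v → ¬ Iso (F u) (F v)

/-- Analytic sets: the empty set and the images of Borel maps defined on the Baire space. -/
def IsAnalytic {X : Type} [MeasurableSpace X] (A : Set X) : Prop :=
  A = ∅ ∨ ∃ f : (ℕ → ℕ) → X, Measurable f ∧ range f = A

/-- The structures in which any two points lie in a substructure isomorphic to a member of `Y`
(`p` enumerates the substructure so that the induced structure is a member of `Y`). -/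
def Cov2 (Y : Set (Str ar D ℕ)) : Set (Str ar D ℕ) :=
  {x | ∀ a b : ℕ, ∃ p : ℕ → ℕ, Function.Injective p ∧ a ∈ range p ∧ b ∈ range p ∧ pull x p ∈ Y}

/-- `Y` is a set of structures with `m` marked points. The structures `x` with `m` points `c` such
that any two points and the points `c` lie in a substructure which is isomorphic to a member of `Y`,
the marked points of which correspond to the points `c`. -/
def Covered (m : ℕ) (Y : Set (Str ar D ℕ × (Fin m → ℕ))) : Set (Str ar D ℕ) :=
  {x | ∃ c : Fin m → ℕ, ∀ a b : ℕ, ∃ (p : ℕ → ℕ) (q : Fin m → ℕ), Function.Injective p ∧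
    p ∘ q = c ∧ a ∈ range p ∧ b ∈ range p ∧ (pull x p, q) ∈ Y}

/-! ### Formulas -/

/-- Infinitary formulas with variables in `V` and counting quantifiers. -/
inductive Formula (V : Type) {ι : Type} (ar : ι → ℕ) (D : ι → Type)
    [∀ i, MeasurableSpace (D i)] : Type
  | label (i : ι) (B : Set (D i)) (hB : MeasurableSet B) (w : Fin (ar i) → V) : Formula V ar D
  | equal (a b : V) : Formula V ar D
  | not (φ : Formula V ar D) : Formula V ar D
  | conj (φ : ℕ → Formula V ar D) : Formula V ar D
  | ex (a : V) (φ : Formula V ar D) : Formula V ar D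
  | atLeast (k : ℕ) (a : V) (φ : Formula V ar D) : Formula V ar D

section Holds

variable [∀ i, MeasurableSpace (D i)] {V : Type} [DecidableEq V]

/-- The formula is true in the structure `x` if the variables have the values `v a`. -/
def Holds (x : Str ar D ℕ) : Formula V ar D → (V → ℕ) → Prop
  | .label i B _ w, v => x i (v ∘ w) ∈ B
  | .equal a b, v => v a = v b
  | .not φ, v => ¬ Holds x φ v
  | .conj φ, v => ∀ n, Holds x (φ n) v
  | .ex a φ, v => ∃ n, Holds x φ (Function.update v a n)
  | .atLeast k a φ, v => (k : ℕ∞) ≤ {n | Holds x φ (Function.update v a n)}.encard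

omit [DecidableEq V] in
/-- There are no quantifiers. -/
def QuantifierFree : Formula V ar D → Prop
  | .label _ _ _ _ => True
  | .equal _ _ => True
  | .not φ => QuantifierFree φ
  | .conj φ => ∀ n, QuantifierFree (φ n)
  | .ex _ _ => False
  | .atLeast _ _ _ => False

/-- The existential formulas: the least class which contains the formulas without quantifiers and
is closed under countable conjunctions, countable disjunctions and existential quantifiers. -/
inductive Existential : Formula V ar D → Prop
  | free (φ : Formula V ar D) : QuantifierFree φ → Existential φ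
  | conj (φ : ℕ → Formula V ar D) : (∀ n, Existential (φ n)) → Existential (.conj φ)
  | disj (φ : ℕ → Formula V ar D) : (∀ n, Existential (φ n)) →
      Existential (.not (.conj fun n => .not (φ n)))
  | ex (a : V) (φ : Formula V ar D) : Existential φ → Existential (.ex a φ)

end Holds

/-- The values `c 0, ..., c (m-1), a` for the first `m+1` variables and `b` for the others. -/
def assign {m : ℕ} (c : Fin m → ℕ) (a b : ℕ) (i : ℕ) : ℕ :=
  if h : i < m then c ⟨i, h⟩ else if i = m then a else b

/-- The models of the sentence `∃ v_0 ... v_{m-1} ∀ v_m ∀ v_{m+1} φ`. -/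
def Models2 [∀ i, MeasurableSpace (D i)] (m : ℕ) (φ : Formula ℕ ar D) : Set (Str ar D ℕ) :=
  {x | ∃ c : Fin m → ℕ, ∀ a b, Holds x φ (assign c a b)}

/-- The models of the sentence `∀ v φ` (all variables). -/
def ModelsAll [∀ i, MeasurableSpace (D i)] {V : Type} [DecidableEq V] (φ : Formula V ar D) :
    Set (Str ar D ℕ) :=
  {x | ∀ v : V → ℕ, Holds x φ v}

/-! ### Automorphisms, fixed points, twins -/

/-- `a` and `b` are in the same orbit of the automorphism group. -/
def Orb (x : Str ar D ℕ) (a b : ℕ) : Prop := ∃ g : ℕ ≃ ℕ, Aut x g ∧ g a = b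

/-- `a` is fixed by all automorphisms. -/
def Fx (x : Str ar D ℕ) (a : ℕ) : Prop := ∀ b, Orb x a b → b = a

/-- `a` and `b` are twins: the transposition of `a` and `b` is an automorphism. -/
def Tw (x : Str ar D ℕ) (a b : ℕ) : Prop := Aut x (Equiv.swap a b)

/-- `s` numbers every class of twins by an initial segment of the natural numbers. -/
def Lb (x : Str ar D ℕ) (s : ℕ → ℕ) : Prop :=
  (∀ a b, Tw x a b → s a = s b → a = b) ∧ ∀ a n, n < s a → ∃ b, Tw x a b ∧ s b = n

/-- A tuple with some entries replaced by `a` and `b`. -/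
def tup {k : ℕ} {V : Type} (t : Fin k → Option Bool) (par : Fin k → V) (a b : V) : Fin k → V :=
  fun j => match t j with
    | some false => a
    | some true => b
    | none => par j

/-- First coding case: two pairs of moved points in the same orbits with different types over the
fixed points. -/
def A2 (x : Str ar D ℕ) : Prop :=
  ∃ z u z' u' : ℕ, z ≠ u ∧ z' ≠ u' ∧ Orb x z z' ∧ Orb x u u' ∧ ¬ Fx x z ∧ ¬ Fx x u ∧
    ∃ (i : ι) (t : Fin (ar i) → Option Bool) (n : Fin (ar i) → ℕ), (∀ k, t k = none → Fx x (n k)) ∧
      x i (tup t n z u) ≠ x i (tup t n z' u')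

/-- Second coding case: a moved point and a label of arity at least three. -/
def A1 (x : Str ar D ℕ) : Prop :=
  (∃ a, ¬ Fx x a) ∧ ∃ (i : ι), 3 ≤ ar i ∧ ∃ c0 c1 : D i, c0 ≠ c1

/-! ### The free linear space of copies of a structure -/

/-- Points: three kinds of initial points, and points of new blocks. -/
inductive Q : Type
  | g : Q
  | e (i : ℕ) : Q
  | f (i : ℕ) : Q
  | new (a b : Q) (v : ℕ) : Q

/-- the kind of a point -/
def rk : Q → ℕ
  | .g => 0
  | .e _ => 1
  | .f _ => 2
  | .new _ _ _ => 3

/-- a code of a point -/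
def code : Q → ℕ
  | .g => 0
  | .e i => 3 * i + 1
  | .f i => 3 * i + 2
  | .new a b v => 3 * Nat.pair (Nat.pair (code a) (code b)) v + 3

/-- the order of the points -/
def lt (a b : Q) : Prop := rk a < rk b ∨ (rk a = rk b ∧ code a < code b)

/-- The pair is contained in a block in which one of the two points is new. -/
def Nr (a b : Q) : Prop :=
  (∃ c d v, a = .new c d v ∧ (b = c ∨ b = d ∨ ∃ w, b = .new c d w)) ∨
    ∃ c d v, b = .new c d v ∧ (a = c ∨ a = d ∨ ∃ w, a = .new c d w)

/-- The pair generates a block. -/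
def Gen (a b : Q) : Prop := lt a b ∧ ¬ Nr a b

/-- The data of a free construction: `z, u` the places of the initial points, `z', u'` the second
places, `ρ` the default places of a pair. -/
structure Dat (x : Str ar D ℕ) where
  z : ℕ
  u : ℕ
  z' : ℕ
  u' : ℕ
  ρ : ℕ → ℕ → ℕ × ℕ
  nz : ¬ Fx x z
  nu : ¬ Fx x u
  zu : z ≠ u
  zu' : z' ≠ u'
  oz : Orb x z z'
  ou : Orb x u u'
  hρ : ∀ m m', ¬ Fx x m → ¬ Fx x m' →
    Orb x m (ρ m m').1 ∧ Orb x m' (ρ m m').2 ∧ (ρ m m').1 ≠ (ρ m m').2

section Geo

variable {x : Str ar D ℕ} (T : Dat x)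

/-- the place of a point in its first block -/
def mm : Q → ℕ
  | .g => T.z
  | .e _ => T.z
  | .f _ => T.u
  | .new _ _ v => v

/-- the places of the two points of a generating pair in their block -/
def pl : Q → Q → ℕ × ℕ
  | .e _, .f _ => (T.z, T.u)
  | a, b => T.ρ (mm T a) (mm T b)

/-- the valid points -/
def Val : Q → Prop
  | .new a b v => Val a ∧ Val b ∧ Gen a b ∧ ¬ Fx x v ∧ v ≠ (pl T a b).1 ∧ v ≠ (pl T a b).2
  | _ => True

/-- the permutation which maps `z, u` to `z', u'` and preserves the orbits -/
def sg : Equiv.Perm ℕ := Equiv.swap (Equiv.swap T.z T.z' T.u) T.u' * Equiv.swap T.z T.z'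

/-- The universe of the free structure: the valid points and the fixed points of `x`. -/
def Pt : Type := {p : Q ⊕ ℕ // Sum.elim (Val T) (Fx x) p}

/-- The blocks: the generating pairs. -/
def Blk : Type := {ab : Q × Q // Val T ab.1 ∧ Val T ab.2 ∧ Gen ab.1 ab.2}

variable {T}

/-- the point is in the block (the fixed points are in all blocks) -/
def Mem (B : Blk T) (p : Pt T) : Prop :=
  ∀ q, p.1 = Sum.inl q → q = B.1.1 ∨ q = B.1.2 ∨ ∃ v, q = .new B.1.1 B.1.2 v

open Classical in
/-- the place of a point of a block -/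
noncomputable def bp (B : Blk T) (q : Q) : ℕ :=
  if q = B.1.1 then (pl T B.1.1 B.1.2).1 else if q = B.1.2 then (pl T B.1.1 B.1.2).2
  else mm T q

/-- the block is twisted: it is generated by `e i` and `f j` with `A i j` -/
def Tws (A : ℕ → ℕ → Prop) (B : Blk T) : Prop := ∃ i j, B.1 = (.e i, .f j) ∧ A i j

open Classical in
/-- the place of a point of a block, twisted -/
noncomputable def pos (A : ℕ → ℕ → Prop) (B : Blk T) (p : Pt T) : ℕ :=
  match p.1 with
  | .inr k => k
  | .inl q => if Tws A B then sg T (bp B q) else bp B q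

open Classical in
/-- The free structure: the tuples of a block have the label of their places, the others have the
label given by `fr`. -/
noncomputable def Gst (T : Dat x) (A : ℕ → ℕ → Prop) (fr : Str ar D (Pt T)) : Str ar D (Pt T) :=
  fun i v => if h : ∃ B : Blk T, ∀ k, Mem B (v k) then x i (fun k => pos A h.choose (v k))
    else fr i v

/-- the point `e i` -/
def eP (T : Dat x) (i : ℕ) : Pt T := ⟨.inl (.e i), trivial⟩

/-- the point `f j` -/
def fP (T : Dat x) (j : ℕ) : Pt T := ⟨.inl (.f j), trivial⟩

/-- the point `g` -/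
def gP (T : Dat x) : Pt T := ⟨.inl .g, trivial⟩

/-- a fixed point of `x` -/
def kP (T : Dat x) (k : ℕ) (hk : Fx x k) : Pt T := ⟨.inr k, hk⟩

open Classical in
/-- the fixed points `n j` as parameters -/
noncomputable def parK (T : Dat x) {k : ℕ} (n : Fin k → ℕ) (j : Fin k) : Pt T :=
  if h : Fx x (n j) then kP T (n j) h else gP T

end Geo

/-! ### Coding -/

/-- the relation: the tuple with `a` and `b` inserted has the label `c` -/
def RR {P : Type} (y : Str ar D P) (i : ι) (t : Fin (ar i) → Option Bool) (par : Fin (ar i) → P)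
    (c : D i) (a b : P) : Prop := y i (tup t par a b) = c

/-- The relation codes the matrix `A` on the points `e i`, `f j`; other points see `e 0, ..., e 5`
and `f 0, ..., f 5` in another way. -/
def Cod {P : Type} (R : P → P → Prop) (e f : ℕ → P) (A : ℕ → ℕ → Prop) : Prop :=
  (∀ i j, R (e i) (f j) ↔ A i j) ∧
  (∀ c, (∀ j, c ≠ f j) → (∀ i, i < 8 → c ≠ e i) →
    ¬ (R (e 0) c ∧ R (e 1) c ∧ R (e 2) c ∧ ¬ R (e 3) c ∧ ¬ R (e 4) c ∧ ¬ R (e 5) c)) ∧
  ∀ c, (∀ i, c ≠ e i) → (∀ j, j < 8 → c ≠ f j) →
    ¬ (R c (f 0) ∧ R c (f 1) ∧ R c (f 2) ∧ ¬ R c (f 3) ∧ ¬ R c (f 4) ∧ ¬ R c (f 5))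

/-- the matrix which codes `d` -/
def AD (d : ℕ → Bool) (i j : ℕ) : Prop :=
  if i < 6 then i < 3 else if j < 6 then j < 3 else if i = 6 then d (j - 6) = true
  else j = i ∨ j = i + 1

/-- the pattern of the second coding case: the first two entries are free, the others are `g` -/
def pt1 (k : ℕ) : Fin k → Option Bool :=
  fun j => if j.1 = 0 then some false else if j.1 = 1 then some true else none

open Classical in
/-- the free labels of the second coding case -/
noncomputable def fr1 {x : Str ar D ℕ} (T : Dat x) (i : ι) (c0 c1 : D i) (A : ℕ → ℕ → Prop) :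
    Str ar D (Pt T) :=
  Function.update (fun j _ => x j fun _ => 0) i fun v =>
    if ∃ a b, A a b ∧ v = tup (pt1 (ar i)) (fun _ => gP T) (eP T a) (fP T b) then c1 else c0

/-! ### Marked points -/

/-- the arities of the structures with marks -/
def mar (ar : ι → ℕ) : Option ι → ℕ
  | none => 1
  | some i => ar i

/-- the labels of the structures with `m` marks -/
def mD (D : ι → Type) (m : ℕ) : Option ι → Type
  | none => Fin m → Bool
  | some i => D i

instance mD_meas [∀ i, MeasurableSpace (D i)] (m : ℕ) : ∀ o, MeasurableSpace (mD D m o)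
  | none => inferInstanceAs (MeasurableSpace (Fin m → Bool))
  | some i => inferInstanceAs (MeasurableSpace (D i))

instance mD_std [∀ i, MeasurableSpace (D i)] [∀ i, StandardBorelSpace (D i)] (m : ℕ) :
    ∀ o, StandardBorelSpace (mD D m o)
  | none => inferInstanceAs (StandardBorelSpace (Fin m → Bool))
  | some i => inferInstanceAs (StandardBorelSpace (D i))

/-- the structure with the points `c 0, ..., c (m-1)` marked -/
def addM {m : ℕ} (x : Str ar D ℕ) (c : Fin m → ℕ) : Str (mar ar) (mD D m) ℕ
  | none, v => fun j => decide (v (0 : Fin 1) = c j)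
  | some i, v => x i v

/-- the structure without the marks -/
def redM {m : ℕ} (y : Str (mar ar) (mD D m) ℕ) : Str ar D ℕ := fun i v => y (some i) v

/-! ### Three variables: the normal form -/

section Three

variable [∀ i, MeasurableSpace (D i)] {V : Type}

/-- There are no counting quantifiers. -/
def NoCount : Formula V ar D → Prop
  | .label _ _ _ _ => True
  | .equal _ _ => True
  | .not φ => NoCount φ
  | .conj φ => ∀ n, NoCount (φ n)
  | .ex _ φ => NoCount φ
  | .atLeast _ _ _ => False

/-- the subformulas -/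
def subs : Formula V ar D → Set (Formula V ar D)
  | .label i B hB w => {.label i B hB w}
  | .equal a b => {.equal a b}
  | .not φ => {.not φ} ∪ subs φ
  | .conj φ => {.conj φ} ∪ ⋃ n, subs (φ n)
  | .ex a φ => {.ex a φ} ∪ subs φ
  | .atLeast k a φ => {.atLeast k a φ} ∪ subs φ

end Three

/-- one binary function -/
abbrev bar : Unit → ℕ := fun _ => 2

/-- with values in `C` -/
abbrev bD (C : Type) : Unit → Type := fun _ => C

/-- the formulas with three variables -/
abbrev F3 (C : Type) [MeasurableSpace C] : Type := Formula (Fin 3) bar (bD C)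

/-- the two other variables -/
def oth (a : Fin 3) : Fin 2 → Fin 3 := if a = 0 then ![1, 2] else if a = 1 then ![0, 2] else ![0, 1]

section Norm

variable {C : Type} [MeasurableSpace C]

/-- the labels of the expansion by the truth values of the formulas of `S` -/
abbrev LS (S : Set (F3 C)) : Type := C × (S → Bool)

/-- the truth value of `ψ` in the label -/
def ev {S : Set (F3 C)} (s : LS S) (ψ : F3 C) : Prop := ∃ h : ψ ∈ S, s.2 ⟨ψ, h⟩ = true

theorem meas_ev {S : Set (F3 C)} (ψ : F3 C) : MeasurableSet {s : LS S | ev s ψ} := by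
  by_cases h : ψ ∈ S
  · have h1 : {s : LS S | ev s ψ} = {s : LS S | s.2 ⟨ψ, h⟩ = true} := by
      ext s
      exact ⟨fun ⟨_, h2⟩ => h2, fun h2 => ⟨h, h2⟩⟩
    have h2 : Measurable fun s : LS S => s.2 ⟨ψ, h⟩ :=
      (measurable_pi_apply (X := fun _ : S => Bool) ⟨ψ, h⟩).comp measurable_snd
    rw [h1]
    exact h2 (measurableSet_singleton true)
  · have h1 : {s : LS S | ev s ψ} = ∅ := by
      ext s
      exact ⟨fun ⟨h2, _⟩ => (h h2).elim, fun h2 => h2.elim⟩
    rw [h1]
    exact MeasurableSet.empty

/-- the translation: quantified subformulas are read from the labels -/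
def tr (S : Set (F3 C)) : F3 C → F3 (LS S)
  | .label _ B hB w => .label () (Prod.fst ⁻¹' B) (measurable_fst hB) w
  | .equal a b => .equal a b
  | .not φ => .not (tr S φ)
  | .conj φ => .conj fun n => tr S (φ n)
  | .ex a φ => .label () {s | ev s (.ex a φ)} (meas_ev _) (oth a)
  | .atLeast _ _ _ => .equal 0 0

/-- conjunction of two formulas -/
def and2 {C' : Type} [MeasurableSpace C'] (φ ψ : F3 C') : F3 C' :=
  .conj fun n => if n = 0 then φ else ψ

/-- the condition for a subformula -/
def cnd (S : Set (F3 C)) : F3 C → F3 (LS S)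
  | .ex a φ => and2 (.not (and2 (tr S φ) (.not (tr S (.ex a φ)))))
      (.ex a (.not (and2 (tr S (.ex a φ)) (.not (tr S φ)))))
  | ψ => .not (.label () {s | ev s ψ} (meas_ev ψ) ![0, 1])

/-- the normal form, for an enumeration `θ` of the subformulas -/
def nf (φ : F3 C) (θ : ℕ → F3 C) : F3 (LS (subs φ)) :=
  and2 (tr (subs φ) φ) (.conj fun n => cnd (subs φ) (θ n))

/-- the reduct -/
def red3 {S : Set (F3 C)} (y : Str bar (bD (LS S)) ℕ) : Str bar (bD C) ℕ := fun i v => (y i v).1

open Classical in
/-- the expansion; the truth value of `ex a φ` is that for the values `v 0`, `v 1` of the two other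
variables -/
noncomputable def exp3 (S : Set (F3 C)) (x : Str bar (bD C) ℕ) : Str bar (bD (LS S)) ℕ :=
  fun i v => (x i v, fun ψ => match ψ.1 with
    | .ex a φ => decide (∃ w : Fin 3 → ℕ, (∀ j, w (oth a j) = v j) ∧ Holds x (.ex a φ) w)
    | _ => false)

end Norm

end Pool.Agent.H85.TU
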