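import Pool.Agent.H17.TU.CLO
import Pool.Agent.H17.TU.WDF
import Pool.Agent.H68.TU.LNE
import Pool.Agent.H66.TUM.INF
import Pool.Agent.H66.TUM.LAB
import Pool.Agent.H67.TU.DEC
import Pool.Agent.H67.TU.PRF
import Pool.Agent.H52.TU.CAA
import Pool.Agent.H52.TU.CSB
import Pool.Agent.H52.TU.SIL
import Pool.Agent.H65.TU.CD1
import Pool.Agent.H65.TU.CD2
import Pool.Agent.H38.TU.MES
import Pool.Agent.H38.TU.ANA
import Pool.Agent.H40.TU.PFT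
import Pool.Agent.H59.TU.BOR
import Pool.Agent.H59.TU.UNI
import Pool.Agent.H20.TU.LNU
import Pool.Agent.H20.TU.BIJ
import Pool.Agent.H14.TU.DIC
import Pool.Agent.H1.TU.MFR
import Pool.Agent.H60.TU.TWN
import Pool.Agent.H11.TU.ORB
import Pool.Agent.H8.TU.MRK

/-!
# The dichotomy for covered classes
-/

set_option autoImplicit false

namespace Pool.Agent.H85.TU

theorem all_WDF : T_WDF := Pool.Agent.H17.TU.pf_WDF Pool.Agent.H20.TU.pf_LNU Pool.Agent.H11.TU.pf_ORB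

theorem all_CLO : T_CLO :=
  Pool.Agent.H17.TU.pf_CLO Pool.Agent.H68.TU.pf_LNE
    (Pool.Agent.H20.TU.pf_BIJ Pool.Agent.H11.TU.pf_ORB) all_WDF

theorem all_PFT : T_PFT :=
  Pool.Agent.H40.TU.pf_PFT Pool.Agent.H67.TU.pf_PRF Pool.Agent.H67.TU.pf_DEC all_CLO
    Pool.Agent.H66.TUM.pf_INF Pool.Agent.H38.TU.pf_MES

theorem all_CAA : T_CAA :=
  Pool.Agent.H52.TU.pf_CAA all_PFT (Pool.Agent.H65.TU.pf_CD2 all_WDF)
    (Pool.Agent.H65.TU.pf_CD1 Pool.Agent.H20.TU.pf_LNU all_WDF) Pool.Agent.H1.TU.pf_MFR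

theorem all_CSB : T_CSB :=
  Pool.Agent.H52.TU.pf_CSB Pool.Agent.H66.TUM.pf_LAB Pool.Agent.H59.TU.pf_UNI
    Pool.Agent.H52.TU.pf_SIL Pool.Agent.H38.TU.pf_ANA

theorem all_DIC : T_DIC := Pool.Agent.H14.TU.pf_DIC all_CAA Pool.Agent.H60.TU.pf_TWN all_CSB

theorem all_MRK : T_MRK := pf_MRK all_DIC Pool.Agent.H67.TU.pf_PRF

end Pool.Agent.H85.TU
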