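import Pool.Agent.H85.TU.Defs

/-!
# Targets
-/

set_option autoImplicit false

open Set

namespace Pool.Agent.H85.TU

/-- countable sections give perfectly many types -/
def T_PRF : Prop := ∀ (ι : Type) [Countable ι] (ar : ι → ℕ) (D : ι → Type)
  [∀ i, MeasurableSpace (D i)] [∀ i, StandardBorelSpace (D i)] (A : Set (Str ar D ℕ))
  (F : (ℕ → Bool) → Str ar D ℕ), Measurable F → (∀ d, F d ∈ A) →
    (∀ d', {d | Iso (F d) (F d')}.Countable) → PerfectlyMany A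

/-- decoding -/
def T_DEC : Prop := ∀ (P P' : Type) (R : P → P → Prop) (R' : P' → P' → Prop) (e f : ℕ → P)
  (e' f' : ℕ → P') (d d' : ℕ → Bool), Function.Injective e → Function.Injective f →
    (∀ i j, e i ≠ f j) → Cod R e f (AD d) → Cod R' e' f' (AD d') →
    ∀ h : P ≃ P', (∀ a b, R' (h a) (h b) ↔ R a b) →
    (∀ i, i < 8 → h (e i) = e' i ∧ h (f i) = f' i) → d = d'

/-- any two points are in a block -/
def T_LNE : Prop := ∀ (ι : Type) (ar : ι → ℕ) (D : ι → Type) (x : Str ar D ℕ) (T : Dat x)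
  (p q : Pt T), ∃ B : Blk T, Mem B p ∧ Mem B q

/-- two points are in at most one block -/
def T_LNU : Prop := ∀ (ι : Type) (ar : ι → ℕ) (D : ι → Type) (x : Str ar D ℕ) (T : Dat x)
  (B B' : Blk T) (p q : Pt T) (a b : Q), p.1 = Sum.inl a → q.1 = Sum.inl b → a ≠ b →
    Mem B p → Mem B q → Mem B' p → Mem B' q → B = B'

/-- the place of a point is in the orbit of its first place -/
def T_ORB : Prop := ∀ (ι : Type) (ar : ι → ℕ) (D : ι → Type) (x : Str ar D ℕ) (T : Dat x)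
  (A : ℕ → ℕ → Prop) (B : Blk T) (p : Pt T) (q : Q), p.1 = Sum.inl q → Mem B p →
    Orb x (mm T q) (pos A B p) ∧ ¬ Fx x (mm T q)

/-- the places are a bijection -/
def T_BIJ : Prop := ∀ (ι : Type) (ar : ι → ℕ) (D : ι → Type) (x : Str ar D ℕ) (T : Dat x)
  (A : ℕ → ℕ → Prop) (B : Blk T),
    (∀ p q : Pt T, Mem B p → Mem B q → pos A B p = pos A B q → p = q) ∧
      ∀ n, ∃ p : Pt T, Mem B p ∧ pos A B p = n

/-- the labels of the tuples of a block -/
def T_WDF : Prop := ∀ (ι : Type) (ar : ι → ℕ) (D : ι → Type) (x : Str ar D ℕ) (T : Dat x)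
  (A : ℕ → ℕ → Prop) (fr : Str ar D (Pt T)) (i : ι) (v : Fin (ar i) → Pt T) (B : Blk T),
    (∀ k, Mem B (v k)) → Gst T A fr i v = x i fun k => pos A B (v k)

/-- the universe is countable and infinite -/
def T_INF : Prop := ∀ (ι : Type) (ar : ι → ℕ) (D : ι → Type) (x : Str ar D ℕ) (T : Dat x),
  Nonempty (ℕ ≃ Pt T)

/-- the free structure is covered -/
def T_CLO : Prop := ∀ (ι : Type) (ar : ι → ℕ) (D : ι → Type) (Y : Set (Str ar D ℕ))
  (x : Str ar D ℕ) (T : Dat x) (A : ℕ → ℕ → Prop) (fr : Str ar D (Pt T)) (e : ℕ ≃ Pt T),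
    x ∈ Cov2 Y → pull (Gst T A fr) e ∈ Cov2 Y

/-- the first coding case -/
def T_CD2 : Prop := ∀ (ι : Type) (ar : ι → ℕ) (D : ι → Type) (x : Str ar D ℕ) (T : Dat x)
  (A : ℕ → ℕ → Prop) (fr : Str ar D (Pt T)) (i : ι) (t : Fin (ar i) → Option Bool)
  (n : Fin (ar i) → ℕ), (∀ k, t k = none → Fx x (n k)) →
    x i (tup t n T.z T.u) ≠ x i (tup t n T.z' T.u') →
    Cod (RR (Gst T A fr) i t (parK T n) (x i (tup t n T.z' T.u'))) (eP T) (fP T) A

/-- the second coding case -/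
def T_CD1 : Prop := ∀ (ι : Type) (ar : ι → ℕ) (D : ι → Type) (x : Str ar D ℕ) (T : Dat x)
  (A : ℕ → ℕ → Prop) (i : ι) (c0 c1 : D i), 3 ≤ ar i → c0 ≠ c1 →
    Cod (RR (Gst T A (fr1 T i c0 c1 A)) i (pt1 (ar i)) (fun _ => gP T) c1) (eP T) (fP T) A

/-- the free structure depends on `d` in a Borel way -/
def T_MES : Prop := ∀ (ι : Type) (ar : ι → ℕ) (D : ι → Type) [∀ i, MeasurableSpace (D i)]
  (x : Str ar D ℕ) (T : Dat x) (fr : (ℕ → Bool) → Str ar D (Pt T)),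
    (∀ i v, Measurable fun d => fr d i v) → ∀ i v, Measurable fun d => Gst T (AD d) (fr d) i v

/-- the free labels of the second coding case depend on `d` in a Borel way -/
def T_MFR : Prop := ∀ (ι : Type) (ar : ι → ℕ) (D : ι → Type) [∀ i, MeasurableSpace (D i)]
  (x : Str ar D ℕ) (T : Dat x) (i : ι) (c0 c1 : D i) (j : ι) (v : Fin (ar j) → Pt T),
    Measurable fun d : ℕ → Bool => fr1 T i c0 c1 (AD d) j v

/-- perfectly many types from a coding -/
def T_PFT : Prop := ∀ (ι : Type) [Countable ι] (ar : ι → ℕ) (D : ι → Type)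
  [∀ i, MeasurableSpace (D i)] [∀ i, StandardBorelSpace (D i)] (Y : Set (Str ar D ℕ))
  (x : Str ar D ℕ) (T : Dat x) (fr : (ℕ → Bool) → Str ar D (Pt T)),
    x ∈ Cov2 Y → (∀ i v, Measurable fun d => fr d i v) →
    ∀ (i : ι) (t : Fin (ar i) → Option Bool) (par : Fin (ar i) → Pt T) (c : D i),
    (∀ d, Cod (RR (Gst T (AD d) (fr d)) i t par c) (eP T) (fP T) (AD d)) →
    PerfectlyMany (Cov2 Y)

/-- the two coding cases -/
def T_CAA : Prop := ∀ (ι : Type) [Countable ι] (ar : ι → ℕ) (D : ι → Type)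
  [∀ i, MeasurableSpace (D i)] [∀ i, StandardBorelSpace (D i)] (Y : Set (Str ar D ℕ))
  (x : Str ar D ℕ), x ∈ Cov2 Y → A2 x ∨ A1 x → PerfectlyMany (Cov2 Y)

/-- otherwise the orbits are contained in classes of twins -/
def T_TWN : Prop := ∀ (ι : Type) (ar : ι → ℕ) (D : ι → Type) (x : Str ar D ℕ),
  ¬ A2 x → ¬ A1 x → ∀ g : ℕ ≃ ℕ, Aut x g → ∀ a, Tw x a (g a)

/-- the classes of twins can be numbered -/
def T_LAB : Prop := ∀ (ι : Type) (ar : ι → ℕ) (D : ι → Type) (x : Str ar D ℕ), ∃ s, Lb x s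

/-- the numbering is unique up to automorphisms -/
def T_UNI : Prop := ∀ (ι : Type) (ar : ι → ℕ) (D : ι → Type) (x : Str ar D ℕ) (s s' : ℕ → ℕ),
  Lb x s → Lb x s' → ∃ h : ℕ ≃ ℕ, Aut x h ∧ ∀ a, s' (h a) = s a

/-- the dichotomy for free actions -/
def T_SIL : Prop := ∀ (ι : Type) [Countable ι] (ar : ι → ℕ) (D : ι → Type)
  [∀ i, MeasurableSpace (D i)] [∀ i, StandardBorelSpace (D i)] (Z : Type) [MeasurableSpace Z]
  [StandardBorelSpace Z] (φ : Z → Str ar D ℕ) (ψ : Z → ℕ → ℕ), Measurable φ → Measurable ψ →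
    (∀ (ζ : Z) (g : ℕ ≃ ℕ), Aut (φ ζ) g → (∀ a, ψ ζ (g a) = ψ ζ a) → ∀ a, g a = a) →
    (∃ S : Set Z, S.Countable ∧ ∀ ζ, ∃ ζ' ∈ S, ∃ g : ℕ ≃ ℕ,
      (∀ i v, φ ζ' i (g ∘ v) = φ ζ i v) ∧ ∀ a, ψ ζ' (g a) = ψ ζ a) ∨
    ∃ F : (ℕ → Bool) → Z, Measurable F ∧ ∀ u w, u ≠ w → ¬ ∃ g : ℕ ≃ ℕ,
      (∀ i v, φ (F w) i (g ∘ v) = φ (F u) i v) ∧ ∀ a, ψ (F w) (g a) = ψ (F u) a

/-- the numbered members of `Cov2 Y` are parametrized by a standard Borel space -/
def T_ANA : Prop := ∀ (ι : Type) [Countable ι] (ar : ι → ℕ) (D : ι → Type)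
  [∀ i, MeasurableSpace (D i)] [∀ i, StandardBorelSpace (D i)] (Y : Set (Str ar D ℕ)),
    IsAnalytic Y → ∃ (Z : Type) (_ : MeasurableSpace Z) (_ : StandardBorelSpace Z)
      (φ : Z → Str ar D ℕ) (ψ : Z → ℕ → ℕ), Measurable φ ∧ Measurable ψ ∧
      (∀ ζ, φ ζ ∈ Cov2 Y ∧ Lb (φ ζ) (ψ ζ)) ∧ ∀ x ∈ Cov2 Y, ∀ s, Lb x s → ∃ ζ, φ ζ = x ∧ ψ ζ = s

/-- the dichotomy if the orbits are contained in classes of twins -/
def T_CSB : Prop := ∀ (ι : Type) [Countable ι] (ar : ι → ℕ) (D : ι → Type)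
  [∀ i, MeasurableSpace (D i)] [∀ i, StandardBorelSpace (D i)] (Y : Set (Str ar D ℕ)),
    IsAnalytic Y → (∀ x ∈ Cov2 Y, ∀ g : ℕ ≃ ℕ, Aut x g → ∀ a, Tw x a (g a)) →
    CountablyMany (Cov2 Y) ∨ PerfectlyMany (Cov2 Y)

/-- the dichotomy without marked points -/
def T_DIC : Prop := ∀ (ι : Type) [Countable ι] (ar : ι → ℕ) (D : ι → Type)
  [∀ i, MeasurableSpace (D i)] [∀ i, StandardBorelSpace (D i)] (Y : Set (Str ar D ℕ)),
    IsAnalytic Y → CountablyMany (Cov2 Y) ∨ PerfectlyMany (Cov2 Y)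

/-- the dichotomy with marked points -/
def T_MRK : Prop := ∀ (ι : Type) [Countable ι] (ar : ι → ℕ) (D : ι → Type)
  [∀ i, MeasurableSpace (D i)] [∀ i, StandardBorelSpace (D i)] (m : ℕ)
  (Y : Set (Str ar D ℕ × (Fin m → ℕ))),
    IsAnalytic Y → CountablyMany (Covered m Y) ∨ PerfectlyMany (Covered m Y)

/-- existential formulas are preserved by extensions -/
def T_PER : Prop := ∀ (ι : Type) (ar : ι → ℕ) (D : ι → Type) [∀ i, MeasurableSpace (D i)]
  (V : Type) [DecidableEq V] (φ : Formula V ar D), Existential φ → ∀ (x : Str ar D ℕ) (p : ℕ → ℕ),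
    Function.Injective p → ∀ v : V → ℕ, Holds (pull x p) φ v → Holds x φ (p ∘ v)

/-- the models of a formula form a Borel set -/
def T_MHO : Prop := ∀ (ι : Type) (ar : ι → ℕ) (D : ι → Type) [∀ i, MeasurableSpace (D i)]
  (V : Type) [DecidableEq V] (φ : Formula V ar D) (v : V → ℕ),
    MeasurableSet {x : Str ar D ℕ | Holds x φ v}

/-- Borel sets are analytic -/
def T_BOR : Prop := ∀ (X : Type) [MeasurableSpace X] [StandardBorelSpace X] (A : Set X),
  MeasurableSet A → IsAnalytic A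

/-- the dichotomy for the sentences with two universal quantifiers -/
def T_FRM : Prop := ∀ (ι : Type) [Countable ι] (ar : ι → ℕ) (D : ι → Type)
  [∀ i, MeasurableSpace (D i)] [∀ i, StandardBorelSpace (D i)] (m : ℕ) (φ : Formula ℕ ar D),
    Existential φ → CountablyMany (Models2 m φ) ∨ PerfectlyMany (Models2 m φ)

/-- the dichotomy for two variables with counting quantifiers -/
def T_CT2 : Prop := ∀ (C : Type) [MeasurableSpace C] [StandardBorelSpace C]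
  (φ : Formula (Fin 2) bar (bD C)), CountablyMany (ModelsAll φ) ∨ PerfectlyMany (ModelsAll φ)

/-- there are countably many subformulas -/
def T_SUB : Prop := ∀ (C : Type) [MeasurableSpace C] (φ : F3 C),
  (subs φ).Countable ∧ φ ∈ subs φ ∧ ∀ ψ ∈ subs φ, subs ψ ⊆ subs φ

/-- the labels of the models of the normal form are truth values -/
def T_TRU : Prop := ∀ (C : Type) [MeasurableSpace C] (φ : F3 C) (θ : ℕ → F3 C), NoCount φ →
  range θ = subs φ → ∀ y ∈ ModelsAll (nf φ θ), (∀ ψ ∈ subs φ, ∀ v, Holds y (tr (subs φ) ψ) v ↔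
    Holds (red3 y) ψ v) ∧ exp3 (subs φ) (red3 y) = y

/-- the expansions of the models are models of the normal form -/
def T_EXP : Prop := ∀ (C : Type) [MeasurableSpace C] (φ : F3 C) (θ : ℕ → F3 C), NoCount φ →
  range θ = subs φ → ∀ x ∈ ModelsAll φ, exp3 (subs φ) x ∈ ModelsAll (nf φ θ)

/-- formulas are invariant under isomorphisms -/
def T_HIS : Prop := ∀ (ι : Type) (ar : ι → ℕ) (D : ι → Type) [∀ i, MeasurableSpace (D i)]
  (V : Type) [DecidableEq V] (φ : Formula V ar D) (x x' : Str ar D ℕ) (g : ℕ ≃ ℕ),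
    (∀ i v, x' i (g ∘ v) = x i v) → ∀ v : V → ℕ, Holds x' φ (g ∘ v) ↔ Holds x φ v

/-- the truth values of the expansion are invariant under isomorphisms and Borel -/
def T_EXM : Prop := ∀ (C : Type) [MeasurableSpace C] (S : Set (F3 C)),
  (Measurable fun x : Str bar (bD C) ℕ => exp3 S x) ∧
  ∀ (x x' : Str bar (bD C) ℕ), Iso x x' → Iso (exp3 S x) (exp3 S x')

/-- every sentence with three variables has a normal form -/
def T_SNF : Prop := ∀ (C : Type) [MeasurableSpace C] [StandardBorelSpace C] (φ : F3 C),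
  NoCount φ → ∃ (C' : Type) (_ : MeasurableSpace C') (_ : StandardBorelSpace C') (ψ : F3 C'),
    Existential ψ ∧ (CountablyMany (ModelsAll ψ) ↔ CountablyMany (ModelsAll φ)) ∧
      (PerfectlyMany (ModelsAll ψ) ↔ PerfectlyMany (ModelsAll φ))

/-- structures of all arities, given by labels of lists -/
def IsoL {E : Type} (x x' : List ℕ → E) : Prop := ∃ g : Equiv.Perm ℕ, ∀ l, x' (l.map g) = x l

/-- three variables are enough, for structures given by labels of lists -/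
def T_N3 : Prop := ∀ (E : Type) [MeasurableSpace E] [StandardBorelSpace E]
  (X : Set (List ℕ → E)), MeasurableSet X → (∀ x ∈ X, ∀ x', IsoL x x' → x' ∈ X) →
    ∃ ψ : F3 ((ℕ × E) × (ℕ → Bool)), NoCount ψ ∧
      (CountablyMany (ModelsAll ψ) ↔
        ∃ S : Set (List ℕ → E), S.Countable ∧ ∀ x ∈ X, ∃ z ∈ S, IsoL x z) ∧
      (PerfectlyMany (ModelsAll ψ) ↔ ∃ F : (ℕ → Bool) → (List ℕ → E), Measurable F ∧
        (∀ u, F u ∈ X) ∧ ∀ u w, u ≠ w → ¬ IsoL (F u) (F w))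

/-- from structures to structures given by labels of lists -/
def T_L2S : Prop := ∀ (ι : Type) [Countable ι] (ar : ι → ℕ) (D : ι → Type)
  [∀ i, MeasurableSpace (D i)] [∀ i, StandardBorelSpace (D i)] [∀ i, Nonempty (D i)]
  (X : Set (Str ar D ℕ)), MeasurableSet X → (∀ x ∈ X, ∀ x', Iso x x' → x' ∈ X) →
    ∃ (E : Type) (_ : MeasurableSpace E) (_ : StandardBorelSpace E) (X' : Set (List ℕ → E)),
      MeasurableSet X' ∧ (∀ x ∈ X', ∀ x', IsoL x x' → x' ∈ X') ∧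
      ((∃ S : Set (List ℕ → E), S.Countable ∧ ∀ x ∈ X', ∃ z ∈ S, IsoL x z) ↔ CountablyMany X) ∧
      ((∃ F : (ℕ → Bool) → (List ℕ → E), Measurable F ∧
        (∀ u, F u ∈ X') ∧ ∀ u w, u ≠ w → ¬ IsoL (F u) (F w)) ↔ PerfectlyMany X)

/-- three is everything -/
def T_HRD : Prop := ∀ (ι : Type) [Countable ι] (ar : ι → ℕ) (D : ι → Type)
  [∀ i, MeasurableSpace (D i)] [∀ i, StandardBorelSpace (D i)] [∀ i, Nonempty (D i)]
  (X : Set (Str ar D ℕ)), MeasurableSet X → (∀ x ∈ X, ∀ x', Iso x x' → x' ∈ X) →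
    ∃ (C : Type) (_ : MeasurableSpace C) (_ : StandardBorelSpace C) (ψ : F3 C),
      Existential ψ ∧ (CountablyMany (ModelsAll ψ) ↔ CountablyMany X) ∧
      (PerfectlyMany (ModelsAll ψ) ↔ PerfectlyMany X)

end Pool.Agent.H85.TU
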